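import Mathlib

set_option autoImplicit false

/-!
# Abstract elementary classes: definitions and closures

Abstract elementary classes (AECs), Galois types, amalgamation, tameness, AECs admitting
intersections, and the closure operator of such a class.
-/

open FirstOrder FirstOrder.Language Cardinal

namespace Pool.Agent.H85.AECT

universe w

/-- An abstract elementary class in the language `L`: a class of `L`-structures (`Mem`) with a
strong substructure relation (`Strong N M` says that `M ≤ N` in the sense of the class). -/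
structure AEC (L : FirstOrder.Language.{w, w}) where
  /-- membership in the class -/
  Mem : ∀ (N : Type w) [L.Structure N], Prop
  /-- `Strong N M`: the substructure `M` of `N` is a strong substructure of `N` -/
  Strong : ∀ (N : Type w) [L.Structure N], L.Substructure N → Prop
  /-- strong substructures relate members of the class -/
  mem_of_strong : ∀ (N : Type w) [L.Structure N] (M : L.Substructure N),
    Strong N M → Mem N ∧ Mem M
  /-- reflexivity -/
  refl : ∀ (N : Type w) [L.Structure N], Mem N → Strong N ⊤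
  /-- closure under isomorphisms -/
  iso : ∀ (N N' : Type w) [L.Structure N] [L.Structure N'] (e : N ≃[L] N')
    (M : L.Substructure N), Strong N M → Strong N' (M.map e.toHom)
  /-- transitivity -/
  trans : ∀ (N : Type w) [L.Structure N] (M : L.Substructure N) (P : L.Substructure M),
    Strong N M → Strong M P → Strong N (P.map M.subtype.toHom)
  /-- coherence -/
  coherence : ∀ (N : Type w) [L.Structure N] (P M : L.Substructure N),
    Strong N P → Strong N M → P ≤ M → Strong M (P.comap M.subtype.toHom)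
  /-- Tarski-Vaught chain axiom: the union of a chain is in the class and extends the members of
  the chain strongly -/
  chain : ∀ (N : Type w) [L.Structure N] (C : Set (L.Substructure N)), C.Nonempty →
    IsChain (· ≤ ·) C → sSup C = ⊤ →
    (∀ P ∈ C, ∀ M ∈ C, P ≤ M → Strong M (P.comap M.subtype.toHom)) → ∀ M ∈ C, Strong N M
  /-- Tarski-Vaught chain axiom (smoothness): the union of a chain of strong substructures of `N`
  is a strong substructure of `N` -/
  smooth : ∀ (N : Type w) [L.Structure N] (C : Set (L.Substructure N)), C.Nonempty →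
    IsChain (· ≤ ·) C → (∀ M ∈ C, Strong N M) → Strong N (sSup C)
  /-- Löwenheim-Skolem axiom -/
  exists_ls : ∃ κ : Cardinal.{w}, ℵ₀ ≤ κ ∧ L.card ≤ κ ∧
    ∀ (N : Type w) [L.Structure N], Mem N → ∀ A : Set N,
      ∃ M : L.Substructure N, Strong N M ∧ A ⊆ M ∧ #M ≤ #A + κ

variable {L : FirstOrder.Language.{w, w}}

namespace AEC

variable (K : AEC L)

/-- The Löwenheim-Skolem number: the least infinite cardinal `κ ≥ |L|` such that every subset `A`
of every `N` in the class is contained in a strong substructure of size at most `|A| + κ`. -/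
noncomputable def LS : Cardinal.{w} :=
  sInf {κ : Cardinal.{w} | ℵ₀ ≤ κ ∧ L.card ≤ κ ∧
    ∀ (N : Type w) [L.Structure N], K.Mem N → ∀ A : Set N,
      ∃ M : L.Substructure N, K.Strong N M ∧ A ⊆ M ∧ #M ≤ #A + κ}

/-- A strong embedding: an embedding onto a strong substructure. -/
def StrongEmb {M N : Type w} [L.Structure M] [L.Structure N] (f : M ↪[L] N) : Prop :=
  K.Strong N f.toHom.range

/-- The amalgamation property. -/
def Amalgamation : Prop :=
  ∀ (M N₁ N₂ : Type w) [L.Structure M] [L.Structure N₁] [L.Structure N₂]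
    (f₁ : M ↪[L] N₁) (f₂ : M ↪[L] N₂), K.StrongEmb f₁ → K.StrongEmb f₂ →
    ∃ (N : Type w) (_ : L.Structure N) (g₁ : N₁ ↪[L] N) (g₂ : N₂ ↪[L] N),
      K.StrongEmb g₁ ∧ K.StrongEmb g₂ ∧ ∀ m, g₁ (f₁ m) = g₂ (f₂ m)

/-- For strong embeddings `f₁ : M → N₁`, `f₂ : M → N₂`, the elements `a₁` of `N₁` and `a₂` of `N₂`
have the same Galois type over `M`. -/
def SameType {M N₁ N₂ : Type w} [L.Structure M] [L.Structure N₁] [L.Structure N₂]
    (f₁ : M ↪[L] N₁) (a₁ : N₁) (f₂ : M ↪[L] N₂) (a₂ : N₂) : Prop :=
  ∃ (N : Type w) (_ : L.Structure N) (g₁ : N₁ ↪[L] N) (g₂ : N₂ ↪[L] N),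
    K.StrongEmb g₁ ∧ K.StrongEmb g₂ ∧ (∀ m, g₁ (f₁ m) = g₂ (f₂ m)) ∧ g₁ a₁ = g₂ a₂

/-- `(χ, ∞)`-tameness: Galois types over `M` which agree over all strong substructures of `M` of
size at most `χ` are equal. -/
def Tame (χ : Cardinal.{w}) : Prop :=
  ∀ (M N₁ N₂ : Type w) [L.Structure M] [L.Structure N₁] [L.Structure N₂]
    (f₁ : M ↪[L] N₁) (a₁ : N₁) (f₂ : M ↪[L] N₂) (a₂ : N₂),
    K.StrongEmb f₁ → K.StrongEmb f₂ →
    (∀ M₀ : L.Substructure M, K.Strong M M₀ → #M₀ ≤ χ →
      K.SameType (f₁.comp M₀.subtype) a₁ (f₂.comp M₀.subtype) a₂) →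
    K.SameType f₁ a₁ f₂ a₂

/-- The closure of `A` in `N`: the intersection of all strong substructures of `N` which
contain `A`. -/
def cl {N : Type w} [L.Structure N] (A : Set N) : L.Substructure N :=
  sInf {M | K.Strong N M ∧ A ⊆ M}

/-- The class has closures over models: for every strong substructure `M` of `N` and every `a`
in `N` the closure of `M ∪ {a}` in `N` is a strong substructure of `N`. Every class which admits
intersections has this property. -/
def HasClosures : Prop :=
  ∀ (N : Type w) [L.Structure N] (M : L.Substructure N) (a : N), K.Strong N M →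
    K.Strong N (K.cl (insert a (M : Set N)))

/-! ### Elementary facts -/

variable {K}

theorem ls_spec : ℵ₀ ≤ K.LS ∧ L.card ≤ K.LS ∧
    ∀ (N : Type w) [L.Structure N], K.Mem N → ∀ A : Set N,
      ∃ M : L.Substructure N, K.Strong N M ∧ A ⊆ M ∧ #M ≤ #A + K.LS :=
  csInf_mem (s := {κ : Cardinal.{w} | ℵ₀ ≤ κ ∧ L.card ≤ κ ∧
    ∀ (N : Type w) [L.Structure N], K.Mem N → ∀ A : Set N,
      ∃ M : L.Substructure N, K.Strong N M ∧ A ⊆ M ∧ #M ≤ #A + κ}) K.exists_ls

theorem StrongEmb.mem {M N : Type w} [L.Structure M] [L.Structure N] {f : M ↪[L] N}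
    (hf : K.StrongEmb f) : K.Mem N :=
  (K.mem_of_strong _ _ hf).1

theorem strong_subtype {N : Type w} [L.Structure N] {M : L.Substructure N}
    (h : K.Strong N M) : K.StrongEmb M.subtype := by
  have h1 : M.subtype.toHom.range = M := by
    ext x
    simp [Hom.mem_range]
  unfold StrongEmb
  rw [h1]
  exact h

theorem mem_iso {N N' : Type w} [L.Structure N] [L.Structure N'] (e : N ≃[L] N')
    (h : K.Mem N) : K.Mem N' :=
  (K.mem_of_strong _ _ (K.iso _ _ e _ (K.refl _ h))).1

theorem StrongEmb.mem_left {M N : Type w} [L.Structure M] [L.Structure N] {f : M ↪[L] N}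
    (hf : K.StrongEmb f) : K.Mem M :=
  mem_iso f.equivRange.symm (K.mem_of_strong _ _ hf).2

theorem StrongEmb.map {M N : Type w} [L.Structure M] [L.Structure N] {f : M ↪[L] N}
    (hf : K.StrongEmb f) {S : L.Substructure M} (hS : K.Strong M S) :
    K.Strong N (S.map f.toHom) := by
  have h1 := K.iso _ _ f.equivRange S hS
  have h2 := K.trans _ _ _ hf h1
  have h3 : (S.map f.equivRange.toHom).map f.toHom.range.subtype.toHom = S.map f.toHom := by
    rw [Substructure.map_map]
    congr 1
  rwa [h3] at h2

theorem StrongEmb.comap {M N : Type w} [L.Structure M] [L.Structure N] {f : M ↪[L] N}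
    (hf : K.StrongEmb f) {T : L.Substructure N} (hT : K.Strong N T) (hle : T ≤ f.toHom.range) :
    K.Strong M (T.comap f.toHom) := by
  have h1 := K.coherence _ _ _ hT hf hle
  have h2 := K.iso _ _ f.equivRange.symm _ h1
  have h3 : (T.comap f.toHom.range.subtype.toHom).map f.equivRange.symm.toHom =
      T.comap f.toHom := by
    ext x
    constructor
    · rintro ⟨y, hy, rfl⟩
      have : f.toHom (f.equivRange.symm.toHom y) = f.equivRange (f.equivRange.symm y) := rfl
      show f.toHom (f.equivRange.symm.toHom y) ∈ T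
      rw [this, Language.Equiv.apply_symm_apply]
      exact hy
    · intro hx
      refine ⟨f.equivRange x, ?_, ?_⟩
      · exact hx
      · exact Language.Equiv.symm_apply_apply _ _
  rwa [h3] at h2

theorem StrongEmb.comp {M N P : Type w} [L.Structure M] [L.Structure N] [L.Structure P]
    {g : N ↪[L] P} {f : M ↪[L] N} (hg : K.StrongEmb g) (hf : K.StrongEmb f) :
    K.StrongEmb (g.comp f) := by
  have h1 := hg.map hf
  have h2 : f.toHom.range.map g.toHom = (g.comp f).toHom.range := by
    rw [← Hom.range_comp]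
    congr 1
  rwa [h2] at h1

theorem strongEmb_equiv {M N : Type w} [L.Structure M] [L.Structure N] (e : M ≃[L] N)
    (hM : K.Mem M) : K.StrongEmb e.toEmbedding := by
  have h1 := K.iso _ _ e _ (K.refl _ hM)
  have h2 : (⊤ : L.Substructure M).map e.toHom = e.toEmbedding.toHom.range := by
    rw [← Hom.range_eq_map]
    congr 1
  rwa [h2] at h1

theorem strong_trans {N : Type w} [L.Structure N] {P M : L.Substructure N}
    (hP : K.Strong N P) (hM : K.Strong N M) (hle : P ≤ M) :
    K.Strong M (P.comap M.subtype.toHom) :=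
  K.coherence _ _ _ hP hM hle

/-! ### Closures -/

section cl

variable {N : Type w} [L.Structure N]

theorem subset_cl (A : Set N) : A ⊆ K.cl A := by
  intro x hx
  show x ∈ K.cl A
  rw [cl, Substructure.mem_sInf]
  intro M hM
  exact hM.2 hx

theorem cl_le {A : Set N} {M : L.Substructure N} (hM : K.Strong N M) (hA : A ⊆ M) :
    K.cl A ≤ M :=
  sInf_le ⟨hM, hA⟩

theorem cl_mono {A B : Set N} (h : A ⊆ B) : K.cl A ≤ K.cl B :=
  sInf_le_sInf fun _ hM => ⟨hM.1, h.trans hM.2⟩

theorem mk_cl_le (hN : K.Mem N) (A : Set N) : #(K.cl A) ≤ #A + K.LS := by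
  obtain ⟨M, hM, hA, hc⟩ := (ls_spec (K := K)).2.2 N hN A
  exact (Cardinal.mk_subtype_mono (p := fun x => x ∈ K.cl A) (q := fun x => x ∈ M)
    (fun x hx => cl_le hM hA hx)).trans hc

/-- Closures are preserved by strong embeddings. -/
theorem cl_image {P : Type w} [L.Structure P] {g : N ↪[L] P}
    (hg : K.StrongEmb g) {A : Set N} (hA : K.Strong N (K.cl A))
    (hA' : K.Strong P (K.cl (g '' A))) :
    K.cl (g '' A) = (K.cl A).map g.toHom := by
  apply le_antisymm
  · apply cl_le (hg.map hA)
    rintro _ ⟨x, hx, rfl⟩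
    exact ⟨x, subset_cl A hx, rfl⟩
  · rw [Substructure.map_le_iff_le_comap]
    have h1 : K.cl (g '' A) ≤ g.toHom.range := by
      apply cl_le hg
      rintro _ ⟨x, _, rfl⟩
      exact ⟨x, rfl⟩
    apply cl_le (hg.comap hA' h1)
    intro x hx
    exact subset_cl (K := K) (g '' A) ⟨x, hx, rfl⟩

end cl

end AEC

end Pool.Agent.H85.AECT
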