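import Mathlib

set_option autoImplicit false

/-!
# Cardinal arithmetic for the closing-off argument
-/

open Cardinal

namespace Pool.Agent.H85.AECT

universe w

theorem le_of_pow_le {κ θ : Cardinal.{w}} (hθ : ℵ₀ ≤ θ)
    (hpow : ∀ ν < κ, θ ^ ν ≤ θ) : κ ≤ θ := by
  by_contra hcon
  push Not at hcon
  have h1 := hpow θ hcon
  have h2 : θ < 2 ^ θ := Cardinal.cantor θ
  have h3 : (2 : Cardinal.{w}) ^ θ ≤ θ ^ θ :=
    Cardinal.power_le_power_right ((Cardinal.natCast_lt_aleph0 (n := 2)).le.trans hθ)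
  exact absurd (h3.trans h1) (not_le.mpr h2)

theorem exists_bound {κ : Cardinal.{w}} (hκ : κ.IsRegular) (S : Set κ.ord.ToType)
    (hS : #S < κ) : ∃ b : κ.ord.ToType, ∀ s ∈ S, s < b := by
  have h1 : Order.cof κ.ord.ToType = κ := by
    rw [Ordinal.cof_toType, hκ.cof_ord]
  have h2 : ¬ IsCofinal S := by
    intro h
    have := Order.cof_le h
    rw [h1] at this
    exact absurd this (not_le.mpr hS)
  unfold IsCofinal at h2
  push Not at h2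
  exact h2

theorem exists_index {κ ν : Cardinal.{w}} (hν : ν < κ) :
    ∃ i : κ.ord.ToType, #(Set.Iio i) = ν := by
  have hlt : ν.ord < Ordinal.type (α := κ.ord.ToType) (· < ·) := by
    rw [Ordinal.type_toType]
    exact Cardinal.ord_lt_ord.mpr hν
  refine ⟨Ordinal.enum (α := κ.ord.ToType) (· < ·) ⟨ν.ord, hlt⟩, ?_⟩
  have h1 : #(Set.Iio (Ordinal.enum (α := κ.ord.ToType) (· < ·) ⟨ν.ord, hlt⟩)) =
      Ordinal.card (Ordinal.typein (α := κ.ord.ToType) (· < ·)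
        (Ordinal.enum (α := κ.ord.ToType) (· < ·) ⟨ν.ord, hlt⟩)) := by
    rfl
  rw [h1, Ordinal.typein_enum, Cardinal.card_ord]

theorem mk_small_subsets {κ θ : Cardinal.{w}} (hθ : ℵ₀ ≤ θ)
    (hpow : ∀ ν < κ, θ ^ ν ≤ θ) {α : Type w} (D : Set α) (hD : #D ≤ θ) :
    #{X : Set α | X ⊆ D ∧ #X < κ} ≤ θ := by
  have hκθ := le_of_pow_le hθ hpow
  have h1 : {X : Set α | X ⊆ D ∧ #X < κ} ⊆
      ⋃ i : κ.ord.ToType, {X : Set α | X ⊆ D ∧ #X ≤ #(Set.Iio i)} := by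
    rintro X ⟨hXD, hX⟩
    obtain ⟨i, hi⟩ := exists_index hX
    exact Set.mem_iUnion.mpr ⟨i, hXD, hi.ge⟩
  have h2 : ∀ i : κ.ord.ToType, #{X : Set α | X ⊆ D ∧ #X ≤ #(Set.Iio i)} ≤ θ := by
    intro i
    have hi : #(Set.Iio i) < κ := by simpa using Cardinal.mk_Iio_lt i
    calc #{X : Set α | X ⊆ D ∧ #X ≤ #(Set.Iio i)}
        ≤ max #D ℵ₀ ^ #(Set.Iio i) := Cardinal.mk_bounded_subset_le D _
      _ ≤ θ ^ #(Set.Iio i) := Cardinal.power_le_power_right (max_le hD hθ)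
      _ ≤ θ := hpow _ hi
  calc #{X : Set α | X ⊆ D ∧ #X < κ}
      ≤ #(⋃ i : κ.ord.ToType, {X : Set α | X ⊆ D ∧ #X ≤ #(Set.Iio i)}) :=
        Cardinal.mk_le_mk_of_subset h1
    _ ≤ #κ.ord.ToType * ⨆ i : κ.ord.ToType, #{X : Set α | X ⊆ D ∧ #X ≤ #(Set.Iio i)} :=
        Cardinal.mk_iUnion_le _
    _ ≤ θ * θ := by
        apply mul_le_mul'
        · simpa using hκθ
        · exact ciSup_le' h2
    _ = θ := Cardinal.mul_eq_self hθ

theorem mk_union_le_of {θ : Cardinal.{w}} (hθ : ℵ₀ ≤ θ) {ι α : Type w} (hι : #ι ≤ θ)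
    (S : ι → Set α) (hS : ∀ i, #(S i) ≤ θ) : #(⋃ i, S i) ≤ θ :=
  calc #(⋃ i, S i) ≤ #ι * ⨆ i, #(S i) := Cardinal.mk_iUnion_le _
    _ ≤ θ * θ := mul_le_mul' hι (ciSup_le' hS)
    _ = θ := Cardinal.mul_eq_self hθ

end Pool.Agent.H85.AECT
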