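import Pool.Agent.H85.AECT.Isos

set_option autoImplicit false

/-!
# The closing-off argument
-/

open FirstOrder FirstOrder.Language Cardinal

namespace Pool.Agent.H85.AECT

universe w

variable {L : FirstOrder.Language.{w, w}} {K : AEC L}

/-- The orbit of `c` under the automorphisms of the substructure `C` of `N` which fix every
element of `C` lying in `A`. -/
def orbit {N : Type w} [L.Structure N] (C : L.Substructure N) (A : Set N) (c : C) : Set C :=
  {c' | ∃ g : C ≃[L] C, (∀ x : C, (x : N) ∈ A → g x = x) ∧ g c = c'}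

namespace AEC

variable (K)

/-- Closures over models of size at most `θ` are almost rigid: for all strong substructures `M` of
`N` of size at most `θ` and every `a` in `N` there is a set `X` of fewer than `κ` elements of the
closure `C` of `M ∪ {a}` such that every orbit of the automorphism group of `C` over
`M ∪ {a} ∪ X` is finite. -/
def AlmostRigid (κ θ : Cardinal.{w}) : Prop :=
  ∀ (N : Type w) [L.Structure N] (M : L.Substructure N) (a : N), K.Strong N M → #M ≤ θ →
    ∃ X : Set N, X ⊆ K.cl (insert a (M : Set N)) ∧ #X < κ ∧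
      ∀ c : K.cl (insert a (M : Set N)),
        (orbit (K.cl (insert a (M : Set N))) (insert a (M : Set N) ∪ X) c).Finite

/-- Small strong substructures. -/
abbrev Sml (M : Type w) [L.Structure M] (θ : Cardinal.{w}) : Type w :=
  {Q : L.Substructure M // K.Strong M Q ∧ #Q ≤ θ}

/-- `X` makes the closure over `Q` almost rigid. -/
def Good {M N : Type w} [L.Structure M] [L.Structure N] (f : M ↪[L] N) (a : N)
    (Q : L.Substructure M) (X : Set N) : Prop :=
  X ⊆ K.clOver f a Q ∧ ∀ c : K.clOver f a Q,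
    (orbit (K.clOver f a Q) (insert a (f '' (Q : Set M)) ∪ X) c).Finite

variable {K}

theorem exists_ub {M : Type w} [L.Structure M] {θ : Cardinal.{w}} (hM : K.Mem M)
    (hLS : K.LS ≤ θ) (S : Set (K.Sml M θ)) (hS : #S ≤ θ) (A : Set M) (hA : #A ≤ θ) :
    ∃ R : K.Sml M θ, (∀ Q ∈ S, Q.1 ≤ R.1) ∧ A ⊆ R.1 := by
  have hθ : ℵ₀ ≤ θ := (ls_spec (K := K)).1.trans hLS
  obtain ⟨R, hR, hAR, hc⟩ := (ls_spec (K := K)).2.2 M hM (A ∪ ⋃ Q : S, (Q.1.1 : Set M))
  have h1 : #(A ∪ ⋃ Q : S, (Q.1.1 : Set M) : Set M) ≤ θ := by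
    refine (Cardinal.mk_union_le _ _).trans ?_
    refine (add_le_add hA (mk_union_le_of hθ hS _ fun Q => Q.1.2.2)).trans ?_
    exact (Cardinal.add_eq_self hθ).le
  have h2 : #R ≤ θ := hc.trans ((add_le_add h1 hLS).trans (Cardinal.add_eq_self hθ).le)
  refine ⟨⟨R, hR, h2⟩, ?_, ?_⟩
  · intro Q hQ x hx
    exact hAR (Or.inr (Set.mem_iUnion.mpr ⟨⟨Q, hQ⟩, hx⟩))
  · exact Set.subset_union_left.trans hAR

theorem mk_clOver_le {M N : Type w} [L.Structure M] [L.Structure N] {f : M ↪[L] N} {a : N}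
    {θ : Cardinal.{w}} (hN : K.Mem N) (hLS : K.LS ≤ θ) {Q : L.Substructure M} (hQ : #Q ≤ θ) :
    #(K.clOver f a Q) ≤ θ := by
  have hθ : ℵ₀ ≤ θ := (ls_spec (K := K)).1.trans hLS
  refine (mk_cl_le hN _).trans ?_
  have h1 : #(insert a (f '' (Q : Set M)) : Set N) ≤ θ := by
    refine Cardinal.mk_insert_le.trans ?_
    refine (add_le_add (Cardinal.mk_image_le.trans hQ) (Cardinal.one_le_aleph0.trans hθ)).trans ?_
    exact (Cardinal.add_eq_self hθ).le
  exact (add_le_add h1 hLS).trans (Cardinal.add_eq_self hθ).le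

/-- Closures commute with unions of chains of models. -/
theorem exists_mem_clOver_of_chain (hK : K.HasClosures) {M N : Type w} [L.Structure M]
    [L.Structure N] {f : M ↪[L] N} {a : N} (hf : K.StrongEmb f) (C : Set (L.Substructure M))
    (hC : C.Nonempty) (hch : IsChain (· ≤ ·) C) (hCs : ∀ Q ∈ C, K.Strong M Q)
    {x : N} (hx : x ∈ K.clOver f a (sSup C)) :
    ∃ Q ∈ C, x ∈ K.clOver f a Q := by
  let D : Set (L.Substructure N) := (fun Q => K.clOver f a Q) '' C
  have hD : D.Nonempty := hC.image _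
  have hDch : IsChain (· ≤ ·) D := by
    rintro _ ⟨Q, hQ, rfl⟩ _ ⟨R, hR, rfl⟩ _
    rcases hch.total hQ hR with h | h
    · exact Or.inl (clOver_mono h)
    · exact Or.inr (clOver_mono h)
  have hDs : K.Strong N (sSup D) := by
    apply K.smooth N D hD hDch
    rintro _ ⟨Q, hQ, rfl⟩
    exact strong_clOver hK hf (hCs Q hQ)
  obtain ⟨Q₀, hQ₀⟩ := hC
  have hsub : insert a (f '' ((sSup C : L.Substructure M) : Set M)) ⊆
      (sSup D : L.Substructure N) := by
    intro y hy
    rcases hy with rfl | ⟨m, hm, rfl⟩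
    · exact (le_sSup ⟨Q₀, hQ₀, rfl⟩ : K.clOver f y Q₀ ≤ sSup D) mem_clOver_base
    · have hm' : m ∈ sSup C := hm
      rw [Substructure.mem_sSup_of_directedOn ⟨Q₀, hQ₀⟩ hch.directedOn] at hm'
      obtain ⟨Q, hQ, hmQ⟩ := hm'
      exact (le_sSup ⟨Q, hQ, rfl⟩ : K.clOver f a Q ≤ sSup D) (mem_clOver_of_mem hmQ)
  have h1 : x ∈ sSup D := cl_le hDs hsub hx
  rw [Substructure.mem_sSup_of_directedOn hD hDch.directedOn] at h1
  obtain ⟨_, ⟨Q, hQ, rfl⟩, hxQ⟩ := h1
  exact ⟨Q, hQ, hxQ⟩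

/-- A model of size greater than `LS` is the union of a chain of smaller strong substructures. -/
theorem exists_resolution {M : Type w} [L.Structure M] (hM : K.Mem M) (hc : K.LS < #M) :
    ∃ C : Set (L.Substructure M), C.Nonempty ∧ IsChain (· ≤ ·) C ∧ sSup C = ⊤ ∧
      ∀ Q ∈ C, K.Strong M Q ∧ #Q < #M := by
  classical
  have hLS0 : ℵ₀ ≤ K.LS := (ls_spec (K := K)).1
  have hinf : ℵ₀ ≤ #M := hLS0.trans hc.le
  obtain ⟨e⟩ : Nonempty ((#M).ord.ToType ≃ M) := Cardinal.eq.mp (by simp)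
  choose ub hub using fun A : Set M => (ls_spec (K := K)).2.2 M hM A
  let step : (i : (#M).ord.ToType) → ((j : (#M).ord.ToType) → j < i → L.Substructure M) →
      L.Substructure M :=
    fun i g => ub ((e '' Set.Iic i) ∪ ⋃ j : Set.Iio i, (g j.1 j.2 : Set M))
  let P : (#M).ord.ToType → L.Substructure M := WellFounded.fix wellFounded_lt step
  have hP : ∀ i, P i = ub ((e '' Set.Iic i) ∪ ⋃ j : Set.Iio i, (P j.1 : Set M)) := fun i =>
    WellFounded.fix_eq wellFounded_lt step i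
  have hPs : ∀ i, K.Strong M (P i) := by
    intro i
    rw [hP i]
    exact (hub _).1
  have hPsub : ∀ i, (e '' Set.Iic i) ∪ (⋃ j : Set.Iio i, (P j.1 : Set M)) ⊆ (P i : Set M) := by
    intro i
    conv_rhs => rw [hP i]
    exact (hub _).2.1
  have hPmono : ∀ i j : (#M).ord.ToType, i ≤ j → P i ≤ P j := by
    intro i j hij
    rcases hij.eq_or_lt with rfl | h
    · exact le_rfl
    · intro x hx
      exact hPsub j (Or.inr (Set.mem_iUnion.mpr ⟨⟨i, h⟩, hx⟩))
  have hPc : ∀ i, #(P i) ≤ #(Set.Iic i) + K.LS := by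
    intro i
    induction i using WellFoundedLT.induction with
    | ind i ih =>
    rw [hP i]
    refine (hub _).2.2.trans ?_
    have hIic : ℵ₀ ≤ #(Set.Iic i) + K.LS := hLS0.trans (self_le_add_left _ _)
    have h1 : #(⋃ j : Set.Iio i, (P j.1 : Set M)) ≤ #(Set.Iic i) + K.LS := by
      apply mk_union_le_of hIic
      · exact (Cardinal.mk_le_mk_of_subset Set.Iio_subset_Iic_self).trans (self_le_add_right _ _)
      · intro j
        refine (ih j.1 j.2).trans (add_le_add ?_ le_rfl)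
        exact Cardinal.mk_le_mk_of_subset (Set.Iic_subset_Iic.mpr (le_of_lt j.2))
    have h2 : #((e '' Set.Iic i) ∪ ⋃ j : Set.Iio i, (P j.1 : Set M) : Set M) ≤
        #(Set.Iic i) + K.LS := by
      refine (Cardinal.mk_union_le _ _).trans ?_
      refine (add_le_add (Cardinal.mk_image_le.trans (self_le_add_right _ K.LS)) h1).trans ?_
      exact (Cardinal.add_eq_self hIic).le
    exact (add_le_add h2 (self_le_add_left _ _)).trans (Cardinal.add_eq_self hIic).le
  have hIic : ∀ i : (#M).ord.ToType, #(Set.Iic i) < #M := by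
    intro i
    have h1 : #(Set.Iio i) < #M := by simpa using Cardinal.mk_Iio_lt i
    have h2 : Set.Iic i = insert i (Set.Iio i) := (Set.Iio_insert).symm
    rw [h2]
    exact Cardinal.mk_insert_le.trans_lt
      (Cardinal.add_lt_of_lt hinf h1 (Cardinal.one_lt_aleph0.trans_le hinf))
  have hne : Nonempty (#M).ord.ToType := by
    have : Nonempty M := Cardinal.mk_ne_zero_iff.mp
      (Cardinal.aleph0_pos.trans_le hinf).ne'
    exact e.nonempty
  refine ⟨Set.range P, Set.range_nonempty _, ?_, ?_, ?_⟩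
  · rintro _ ⟨i, rfl⟩ _ ⟨j, rfl⟩ _
    rcases le_total i j with h | h
    · exact Or.inl (hPmono _ _ h)
    · exact Or.inr (hPmono _ _ h)
  · rw [eq_top_iff]
    intro x _
    have h1 : x ∈ P (e.symm x) := hPsub _ (Or.inl ⟨e.symm x, Set.mem_Iic.mpr le_rfl, by simp⟩)
    exact (le_sSup (Set.mem_range_self _) : P (e.symm x) ≤ sSup (Set.range P)) h1
  · rintro _ ⟨i, rfl⟩
    exact ⟨hPs i, (hPc i).trans_lt (Cardinal.add_lt_of_lt hinf (hIic i) hc)⟩

/-- Every element of the closure over `M` lies in the closure over a small model. -/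
theorem exists_small_of_mem (hK : K.HasClosures) {θ : Cardinal.{w}} (hLS : K.LS ≤ θ) :
    ∀ (c : Cardinal.{w}) (M N : Type w) [L.Structure M] [L.Structure N] (f : M ↪[L] N) (a : N),
      #M = c → K.StrongEmb f → ∀ x ∈ K.clOver f a (⊤ : L.Substructure M),
        ∃ Q : K.Sml M θ, x ∈ K.clOver f a Q.1 := by
  intro c
  induction c using WellFoundedLT.induction with
  | ind c ih =>
  intro M N _ _ f a hMc hf x hx
  rcases le_or_gt (#M) θ with hle | hlt
  · refine ⟨⟨⊤, K.refl M hf.mem_left, ?_⟩, hx⟩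
    exact (Cardinal.mk_subtype_le _).trans hle
  obtain ⟨C, hC, hch, htop, hCs⟩ := exists_resolution hf.mem_left (hLS.trans_lt hlt)
  rw [← htop] at hx
  obtain ⟨R, hR, hxR⟩ := exists_mem_clOver_of_chain hK hf C hC hch (fun Q hQ => (hCs Q hQ).1) hx
  have hRs := (hCs R hR).1
  have h1 : K.clOver (f.comp R.subtype) a (⊤ : L.Substructure R) = K.clOver f a R := by
    unfold clOver
    congr 2
    ext y
    constructor
    · rintro ⟨z, _, rfl⟩
      exact ⟨z.1, z.2, rfl⟩
    · rintro ⟨z, hz, rfl⟩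
      exact ⟨⟨z, hz⟩, trivial, rfl⟩
  obtain ⟨Q, hQ⟩ := ih _ (hMc ▸ (hCs R hR).2) R N (f.comp R.subtype) a rfl
    (hf.comp (strong_subtype hRs)) x (h1 ▸ hxR)
  refine ⟨⟨Q.1.map R.subtype.toHom, (strong_subtype hRs).map Q.2.1, ?_⟩, ?_⟩
  · exact (Cardinal.mk_image_le (f := R.subtype.toHom) (s := (Q.1 : Set R))).trans Q.2.2
  · have h2 : K.clOver (f.comp R.subtype) a Q.1 = K.clOver f a (Q.1.map R.subtype.toHom) := by
      unfold clOver
      congr 2
      ext y
      constructor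
      · rintro ⟨z, hz, rfl⟩
        exact ⟨z.1, ⟨z, hz, rfl⟩, rfl⟩
      · rintro ⟨_, ⟨z, hz, rfl⟩, rfl⟩
        exact ⟨z, hz, rfl⟩
    exact h2 ▸ hQ

theorem good_exists {M N : Type w} [L.Structure M] [L.Structure N] {f : M ↪[L] N} {a : N}
    {κ θ : Cardinal.{w}} (hAR : K.AlmostRigid κ θ) (hf : K.StrongEmb f)
    {Q : L.Substructure M} (hQ : K.Strong M Q) (hQc : #Q ≤ θ) :
    ∃ X : Set N, #X < κ ∧ K.Good f a Q X := by
  have h1 : K.Strong N (Q.map f.toHom) := hf.map hQ
  have h2 : #(Q.map f.toHom : L.Substructure N) ≤ θ := by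
    refine le_trans ?_ hQc
    exact Cardinal.mk_image_le (f := f) (s := (Q : Set M))
  obtain ⟨X, hX, hXc, horb⟩ := hAR N (Q.map f.toHom) a h1 h2
  exact ⟨X, hXc, hX, horb⟩

/-- The closing-off argument: some `X` is good for arbitrarily large small models. -/
theorem exists_good {M N : Type w} [L.Structure M] [L.Structure N] {f : M ↪[L] N} {a : N}
    {κ θ : Cardinal.{w}} (hK : K.HasClosures) (hκ : κ.IsRegular) (hLS : K.LS ≤ θ)
    (hpow : ∀ ν < κ, θ ^ ν ≤ θ) (hAR : K.AlmostRigid κ θ) (hf : K.StrongEmb f) :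
    ∃ X : Set N, #X < κ ∧ ∀ Q : K.Sml M θ, ∃ R : K.Sml M θ, Q.1 ≤ R.1 ∧ K.Good f a R.1 X := by
  classical
  have hM : K.Mem M := hf.mem_left
  have hN : K.Mem N := hf.mem
  have hθ : ℵ₀ ≤ θ := (ls_spec (K := K)).1.trans hLS
  have hκθ : κ ≤ θ := le_of_pow_le hθ hpow
  by_contra hcon
  push Not at hcon
  -- `B X` is a model above which `X` is never good
  have hB : ∀ X : Set N, ∃ Q : K.Sml M θ, #X < κ → ∀ R : K.Sml M θ, Q.1 ≤ R.1 →
      ¬ K.Good f a R.1 X := by
    intro X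
    by_cases hX : #X < κ
    · obtain ⟨Q, hQ⟩ := hcon X hX
      exact ⟨Q, fun _ => hQ⟩
    · obtain ⟨R, _, _⟩ := exists_ub hM hLS (∅ : Set (K.Sml M θ)) (by simp) ∅ (by simp)
      exact ⟨R, fun h => absurd h hX⟩
  choose B hB using hB
  have hUB : ∀ S : Set (K.Sml M θ), ∃ R : K.Sml M θ, #S ≤ θ → ∀ Q ∈ S, Q.1 ≤ R.1 := by
    intro S
    by_cases hS : #S ≤ θ
    · obtain ⟨R, hR, _⟩ := exists_ub hM hLS S hS ∅ (by simp)
      exact ⟨R, fun _ => hR⟩
    · obtain ⟨R, _, _⟩ := exists_ub hM hLS (∅ : Set (K.Sml M θ)) (by simp) ∅ (by simp)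
      exact ⟨R, fun h => absurd h hS⟩
  choose UB hUB using hUB
  -- the set of requirements coming from a model `Q`
  let req : K.Sml M θ → Set (K.Sml M θ) := fun Q =>
    insert Q (B '' {X : Set N | X ⊆ K.clOver f a Q.1 ∧ #X < κ})
  have hreq : ∀ Q, #(req Q) ≤ θ := by
    intro Q
    refine Cardinal.mk_insert_le.trans ?_
    have h1 : #(B '' {X : Set N | X ⊆ K.clOver f a Q.1 ∧ #X < κ}) ≤ θ :=
      Cardinal.mk_image_le.trans (mk_small_subsets hθ hpow _ (mk_clOver_le hN hLS Q.2.2))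
    exact (add_le_add h1 (Cardinal.one_le_aleph0.trans hθ)).trans (Cardinal.add_eq_self hθ).le
  -- the transfinite construction
  let step : (i : κ.ord.ToType) → ((j : κ.ord.ToType) → j < i → K.Sml M θ) → K.Sml M θ :=
    fun i g => UB (⋃ j : Set.Iio i, req (g j.1 j.2))
  let P : κ.ord.ToType → K.Sml M θ := WellFounded.fix (wellFounded_lt) step
  have hP : ∀ i, P i = UB (⋃ j : Set.Iio i, req (P j.1)) := fun i =>
    WellFounded.fix_eq (wellFounded_lt) step i
  have hPle : ∀ i j : κ.ord.ToType, j < i → ∀ Q ∈ req (P j), Q.1 ≤ (P i).1 := by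
    intro i j hji Q hQ
    rw [hP i]
    apply hUB
    · apply mk_union_le_of hθ
      · have h1 : #(Set.Iio i) < κ := by simpa using Cardinal.mk_Iio_lt i
        exact h1.le.trans hκθ
      · intro j
        exact hreq _
    · exact Set.mem_iUnion.mpr ⟨⟨j, hji⟩, hQ⟩
  have hPmono : ∀ i j : κ.ord.ToType, i ≤ j → (P i).1 ≤ (P j).1 := by
    intro i j hij
    rcases hij.eq_or_lt with rfl | h
    · exact le_rfl
    · exact hPle j i h _ (Set.mem_insert _ _)
  let C : Set (L.Substructure M) := Set.range fun i => (P i).1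
  have hne : Nonempty κ.ord.ToType := by
    obtain ⟨i, _⟩ := exists_index (κ := κ) (ν := 0) (Cardinal.aleph0_pos.trans_le hκ.aleph0_le)
    exact ⟨i⟩
  have hCne : C.Nonempty := Set.range_nonempty _
  have hCch : IsChain (· ≤ ·) C := by
    rintro _ ⟨i, rfl⟩ _ ⟨j, rfl⟩ _
    rcases le_total i j with h | h
    · exact Or.inl (hPmono _ _ h)
    · exact Or.inr (hPmono _ _ h)
  have hCs : K.Strong M (sSup C) := by
    apply K.smooth M C hCne hCch
    rintro _ ⟨i, rfl⟩
    exact (P i).2.1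
  have hCc : #(sSup C : L.Substructure M) ≤ θ := by
    have h1 : ((sSup C : L.Substructure M) : Set M) ⊆ ⋃ i : κ.ord.ToType, ((P i).1 : Set M) := by
      intro x hx
      have hx' : x ∈ sSup C := hx
      rw [Substructure.mem_sSup_of_directedOn hCne hCch.directedOn] at hx'
      obtain ⟨_, ⟨i, rfl⟩, hxi⟩ := hx'
      exact Set.mem_iUnion.mpr ⟨i, hxi⟩
    refine (Cardinal.mk_le_mk_of_subset h1).trans ?_
    apply mk_union_le_of hθ
    · simpa using hκθ
    · intro i
      exact (P i).2.2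
  obtain ⟨X, hXc, hX⟩ := good_exists (a := a) hAR hf hCs hCc
  -- `X` is contained in the closure over some `P j`
  have h1 : ∀ x : X, ∃ i : κ.ord.ToType, (x : N) ∈ K.clOver f a (P i).1 := by
    intro x
    obtain ⟨_, ⟨i, rfl⟩, hi⟩ := exists_mem_clOver_of_chain hK hf C hCne hCch
      (by rintro _ ⟨i, rfl⟩; exact (P i).2.1) (hX.1 x.2)
    exact ⟨i, hi⟩
  choose idx hidx using h1
  obtain ⟨b, hb⟩ := exists_bound hκ (Set.range idx) (Cardinal.mk_range_le.trans_lt hXc)
  have hXb : X ⊆ K.clOver f a (P b).1 := by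
    intro x hx
    exact clOver_mono (hPmono _ _ (hb _ ⟨⟨x, hx⟩, rfl⟩).le) (hidx ⟨x, hx⟩)
  obtain ⟨c, hc⟩ := exists_bound hκ {b} (by
    rw [Cardinal.mk_singleton]
    exact Cardinal.one_lt_aleph0.trans_le hκ.aleph0_le)
  have hbc : b < c := hc b rfl
  have hBX : (B X).1 ≤ (P c).1 :=
    hPle c b hbc _ (Set.mem_insert_of_mem _ ⟨X, ⟨hXb, hXc⟩, rfl⟩)
  exact hB X hXc ⟨sSup C, hCs, hCc⟩ (hBX.trans (le_sSup ⟨c, rfl⟩)) hX

end AEC

end Pool.Agent.H85.AECT
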