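import Pool.Agent.H85.AECT.Closing

set_option autoImplicit false

/-!
# The compactness argument
-/

open FirstOrder FirstOrder.Language Cardinal

namespace Pool.Agent.H85.AECT

universe w

variable {L : FirstOrder.Language.{w, w}} {K : AEC L}

namespace AEC

section main

variable {M N₁ N₂ : Type w} [L.Structure M] [L.Structure N₁] [L.Structure N₂]
  {f₁ : M ↪[L] N₁} {a₁ : N₁} {f₂ : M ↪[L] N₂} {a₂ : N₂} {κ θ : Cardinal.{w}}

/-- Every finite subset of the closure over `M` lies in the closure over a small model. -/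
theorem exists_small_of_finite (hK : K.HasClosures) (hLS : K.LS ≤ θ)
    (hf : K.StrongEmb f₁) (Q₀ : K.Sml M θ) (E : Finset (K.clOver f₁ a₁ (⊤ : L.Substructure M))) :
    ∃ R : K.Sml M θ, Q₀.1 ≤ R.1 ∧ ∀ x ∈ E, (x : N₁) ∈ K.clOver f₁ a₁ R.1 := by
  classical
  have hM : K.Mem M := hf.mem_left
  have hN : K.Mem N₁ := hf.mem
  have hθ : ℵ₀ ≤ θ := (ls_spec (K := K)).1.trans hLS
  induction E using Finset.induction_on with
  | empty => exact ⟨Q₀, le_rfl, fun x hx => absurd hx (Finset.notMem_empty x)⟩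
  | insert x E _ ih =>
    obtain ⟨R, hR, hE⟩ := ih
    obtain ⟨Q, hQ⟩ := exists_small_of_mem hK hLS _ M N₁ f₁ a₁ rfl hf (x : N₁) x.2
    obtain ⟨S, hS, _⟩ := exists_ub hM hLS {Q, R} (by
      refine Cardinal.mk_insert_le.trans ?_
      rw [Cardinal.mk_singleton]
      exact (add_le_add (Cardinal.one_le_aleph0.trans hθ)
        (Cardinal.one_le_aleph0.trans hθ)).trans (Cardinal.add_eq_self hθ).le) ∅ (by simp)
    have hRS : R.1 ≤ S.1 := hS R (by simp)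
    have hQS : Q.1 ≤ S.1 := hS Q (by simp)
    refine ⟨S, hR.trans hRS, ?_⟩
    intro y hy
    rcases Finset.mem_insert.mp hy with rfl | hy'
    · exact clOver_mono hQS hQ
    · exact clOver_mono hRS (hE y hy')

/-- The images of `X` can be prescribed consistently. -/
theorem exists_images (hK : K.HasClosures) (hAP : K.Amalgamation) (hLS : K.LS ≤ θ)
    (hf₁ : K.StrongEmb f₁) (hf₂ : K.StrongEmb f₂)
    (hsame : ∀ M₀ : L.Substructure M, K.Strong M M₀ → #M₀ ≤ θ →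
      K.SameType (f₁.comp M₀.subtype) a₁ (f₂.comp M₀.subtype) a₂)
    (hpow : ∀ ν < κ, θ ^ ν ≤ θ) {X : Set N₁} (hX : #X < κ)
    {Q₀ : K.Sml M θ} (hQ₀ : X ⊆ K.clOver f₁ a₁ Q₀.1) :
    ∃ h : X → N₂, ∀ Q : K.Sml M θ, ∀ hXQ : X ⊆ K.clOver f₁ a₁ Q.1,
      ∃ e ∈ K.Isos f₁ a₁ f₂ a₂ Q.1, ∀ x : X, (e ⟨x, hXQ x.2⟩ : N₂) = h x := by
  have hM : K.Mem M := hf₁.mem_left
  have hN₁ : K.Mem N₁ := hf₁.mem
  have hN₂ : K.Mem N₂ := hf₂.mem
  have hθ : ℵ₀ ≤ θ := (ls_spec (K := K)).1.trans hLS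
  by_contra hcon
  push Not at hcon
  choose Q hXQ hQ using hcon
  let T : Set (K.Sml M θ) :=
    insert Q₀ (Set.range fun h : X → K.clOver f₂ a₂ Q₀.1 => Q fun x => h x)
  have hT : #T ≤ θ := by
    refine Cardinal.mk_insert_le.trans ?_
    have h1 : #(Set.range fun h : X → K.clOver f₂ a₂ Q₀.1 => Q fun x => h x) ≤ θ := by
      refine Cardinal.mk_range_le.trans ?_
      rw [← Cardinal.power_def]
      exact (Cardinal.power_le_power_right (mk_clOver_le hN₂ hLS Q₀.2.2)).trans (hpow _ hX)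
    exact (add_le_add h1 (Cardinal.one_le_aleph0.trans hθ)).trans (Cardinal.add_eq_self hθ).le
  obtain ⟨R, hR, _⟩ := exists_ub hM hLS T hT ∅ (by simp)
  have hQ₀R : Q₀.1 ≤ R.1 := hR _ (Set.mem_insert _ _)
  obtain ⟨e, he⟩ := isos_nonempty hK hf₁ hf₂ R.2.1 (hsame R.1 R.2.1 R.2.2)
  obtain ⟨e₀, he₀, hee₀⟩ := isos_restrict hK hAP hf₁ hf₂ Q₀.2.1 R.2.1 hQ₀R he
  let h : X → K.clOver f₂ a₂ Q₀.1 := fun x => e₀ ⟨x, hQ₀ x.2⟩
  have hQhR : (Q fun x => h x).1 ≤ R.1 := hR _ (Set.mem_insert_of_mem _ ⟨h, rfl⟩)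
  obtain ⟨e₁, he₁, hee₁⟩ := isos_restrict hK hAP hf₁ hf₂ (Q fun x => h x).2.1 R.2.1 hQhR he
  obtain ⟨x, hx⟩ := hQ (fun x => h x) e₁ he₁
  apply hx
  rw [hee₁ _ ⟨x, clOver_mono hQ₀R (hQ₀ x.2)⟩ rfl]
  exact (hee₀ _ _ rfl).symm

variable (K f₁ a₁ f₂ a₂) in
/-- The isomorphisms with prescribed values on `X`. -/
def IsosOn {X : Set N₁} (h : X → N₂) (Q : L.Substructure M) :
    Set (K.clOver f₁ a₁ Q ≃[L] K.clOver f₂ a₂ Q) :=
  {e | e ∈ K.Isos f₁ a₁ f₂ a₂ Q ∧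
    ∀ (x : K.clOver f₁ a₁ Q) (hx : (x : N₁) ∈ X), (e x : N₂) = h ⟨x, hx⟩}

theorem isosOn_restrict (hK : K.HasClosures) (hAP : K.Amalgamation)
    (hf₁ : K.StrongEmb f₁) (hf₂ : K.StrongEmb f₂) {X : Set N₁} {h : X → N₂}
    {Q R : L.Substructure M} (hQs : K.Strong M Q) (hRs : K.Strong M R) (hQR : Q ≤ R) {e : K.clOver f₁ a₁ R ≃[L] K.clOver f₂ a₂ R}
    (he : e ∈ K.IsosOn f₁ a₁ f₂ a₂ h R) :
    ∃ e' ∈ K.IsosOn f₁ a₁ f₂ a₂ h Q, ∀ (x : K.clOver f₁ a₁ Q) (y : K.clOver f₁ a₁ R),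
      (x : N₁) = y → (e' x : N₂) = e y := by
  obtain ⟨e', he', hx⟩ := isos_restrict hK hAP hf₁ hf₂ hQs hRs hQR he.1
  refine ⟨e', ⟨he', ?_⟩, hx⟩
  intro x hxX
  rw [hx x ⟨x, clOver_mono hQR x.2⟩ rfl]
  exact he.2 ⟨x, clOver_mono hQR x.2⟩ hxX

/-- Two isomorphisms with the same values on `X` differ by an automorphism over `X`. -/
theorem mem_orbit {X : Set N₁} {h : X → N₂} {Q : L.Substructure M}
    {e e' : K.clOver f₁ a₁ Q ≃[L] K.clOver f₂ a₂ Q}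
    (he : e ∈ K.IsosOn f₁ a₁ f₂ a₂ h Q) (he' : e' ∈ K.IsosOn f₁ a₁ f₂ a₂ h Q)
    (c : K.clOver f₁ a₁ Q) :
    e.symm (e' c) ∈ orbit (K.clOver f₁ a₁ Q) (insert a₁ (f₁ '' (Q : Set M)) ∪ X) c := by
  refine ⟨e.symm.comp e', ?_, rfl⟩
  intro x hx
  have h1 : (e' x : N₂) = e x := by
    rcases hx with hx | hx
    · rcases hx with hx | ⟨m, hm, hx⟩
      · rw [he.1.2 x hx, he'.1.2 x hx]
      · rw [he.1.1 m hm x hx.symm, he'.1.1 m hm x hx.symm]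
    · rw [he.2 x hx, he'.2 x hx]
  have h2 : e' x = e x := Subtype.ext h1
  show e.symm (e' x) = x
  rw [h2]
  exact Language.Equiv.symm_apply_apply _ _

theorem finite_values {X : Set N₁} {h : X → N₂} {Q : L.Substructure M}
    (hQ : K.Good f₁ a₁ Q X) (c : K.clOver f₁ a₁ Q) :
    {y : N₂ | ∃ e ∈ K.IsosOn f₁ a₁ f₂ a₂ h Q, (e c : N₂) = y}.Finite := by
  rcases Set.eq_empty_or_nonempty (K.IsosOn f₁ a₁ f₂ a₂ h Q) with hemp | ⟨e₀, he₀⟩
  · apply Set.Finite.subset Set.finite_empty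
    rintro y ⟨e, he, _⟩
    rw [hemp] at he
    exact he
  · apply ((hQ.2 c).image fun c' => (e₀ c' : N₂)).subset
    rintro y ⟨e, he, rfl⟩
    refine ⟨e₀.symm (e c), mem_orbit he₀ he c, ?_⟩
    simp

theorem finite_preimages {X : Set N₁} {h : X → N₂} {Q : L.Substructure M}
    (hQ : K.Good f₁ a₁ Q X) (y : K.clOver f₂ a₂ Q) :
    {c : K.clOver f₁ a₁ Q | ∃ e ∈ K.IsosOn f₁ a₁ f₂ a₂ h Q, e c = y}.Finite := by
  rcases Set.eq_empty_or_nonempty (K.IsosOn f₁ a₁ f₂ a₂ h Q) with hemp | ⟨e₀, he₀⟩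
  · apply Set.Finite.subset Set.finite_empty
    rintro y ⟨e, he, _⟩
    rw [hemp] at he
    exact he
  · apply (hQ.2 (e₀.symm y)).subset
    rintro c ⟨e, he, rfl⟩
    -- `c = e.symm (e₀ (e₀.symm (e c)))`
    have h1 := mem_orbit he he₀ (e₀.symm (e c))
    rw [Language.Equiv.apply_symm_apply, Language.Equiv.symm_apply_apply] at h1
    exact h1

end main

end AEC

end Pool.Agent.H85.AECT
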