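import Pool.Agent.H85.AECT.Basic
import Pool.Agent.H85.AECT.Card

set_option autoImplicit false

/-!
# Galois types in classes with intersections are isomorphism types of closures
-/

open FirstOrder FirstOrder.Language Cardinal

namespace Pool.Agent.H85.AECT

universe w

variable {L : FirstOrder.Language.{w, w}} {K : AEC L}

namespace AEC

/-- Two strong embeddings with equal images of `A₁` and `A₂` induce an isomorphism of closures. -/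
theorem iso_of_image_eq {N₁ N₂ N : Type w} [L.Structure N₁]
    [L.Structure N₂] [L.Structure N] {g₁ : N₁ ↪[L] N} {g₂ : N₂ ↪[L] N}
    (h₁ : K.StrongEmb g₁) (h₂ : K.StrongEmb g₂) {A₁ : Set N₁} {A₂ : Set N₂}
    (hA₁ : K.Strong N₁ (K.cl A₁)) (hA₂ : K.Strong N₂ (K.cl A₂))
    (hA : K.Strong N (K.cl (g₁ '' A₁))) (h : g₁ '' A₁ = g₂ '' A₂) :
    ∃ e : K.cl A₁ ≃[L] K.cl A₂, ∀ x : K.cl A₁, g₁ x = g₂ (e x) := by
  have e1 := cl_image h₁ hA₁ hA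
  have e2 := cl_image h₂ hA₂ (h ▸ hA)
  rw [h, e2] at e1
  have key : ∀ (T : L.Substructure N), T = (K.cl A₁).map g₁.toHom →
      T = (K.cl A₂).map g₂.toHom → ∃ e : K.cl A₁ ≃[L] K.cl A₂, ∀ x : K.cl A₁, g₁ x = g₂ (e x) := by
    intro T hT1 hT2
    have i1 : ∃ u : K.cl A₁ ≃[L] T, ∀ x, (u x : N) = g₁ x := by
      subst hT1
      exact ⟨g₁.substructureEquivMap _, fun x => rfl⟩
    have i2 : ∃ u : K.cl A₂ ≃[L] T, ∀ x, (u x : N) = g₂ x := by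
      subst hT2
      exact ⟨g₂.substructureEquivMap _, fun x => rfl⟩
    obtain ⟨u1, hu1⟩ := i1
    obtain ⟨u2, hu2⟩ := i2
    refine ⟨u2.symm.comp u1, fun x => ?_⟩
    rw [← hu1 x, ← hu2]
    simp
  exact key _ e1.symm.symm rfl

section context

variable {M N₁ N₂ : Type w} [L.Structure M] [L.Structure N₁] [L.Structure N₂]
  (f₁ : M ↪[L] N₁) (a₁ : N₁) (f₂ : M ↪[L] N₂) (a₂ : N₂)

variable (K)

/-- The closure of `f Q ∪ {a}`. -/
def clOver {M N : Type w} [L.Structure M] [L.Structure N] (f : M ↪[L] N) (a : N)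
    (Q : L.Substructure M) : L.Substructure N :=
  K.cl (insert a (f '' (Q : Set M)))

/-- The isomorphisms of the closures over `Q` which are the identity on `Q` and
map `a₁` to `a₂`. -/
def Isos (Q : L.Substructure M) : Set (K.clOver f₁ a₁ Q ≃[L] K.clOver f₂ a₂ Q) :=
  {e | (∀ m ∈ Q, ∀ x : K.clOver f₁ a₁ Q, (x : N₁) = f₁ m → (e x : N₂) = f₂ m) ∧
    ∀ x : K.clOver f₁ a₁ Q, (x : N₁) = a₁ → (e x : N₂) = a₂}

variable {K} {f₁ a₁ f₂ a₂}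

theorem clOver_mono {M N : Type w} [L.Structure M] [L.Structure N] {f : M ↪[L] N} {a : N}
    {Q R : L.Substructure M} (h : Q ≤ R) : K.clOver f a Q ≤ K.clOver f a R :=
  cl_mono (Set.insert_subset_insert (Set.image_mono h))

theorem mem_clOver_base {M N : Type w} [L.Structure M] [L.Structure N] {f : M ↪[L] N} {a : N}
    {Q : L.Substructure M} : a ∈ K.clOver f a Q :=
  subset_cl _ (Set.mem_insert _ _)

theorem mem_clOver_of_mem {M N : Type w} [L.Structure M] [L.Structure N] {f : M ↪[L] N} {a : N}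
    {Q : L.Substructure M} {m : M} (hm : m ∈ Q) : f m ∈ K.clOver f a Q :=
  subset_cl _ (Set.mem_insert_of_mem _ ⟨m, hm, rfl⟩)

theorem strong_clOver (hK : K.HasClosures) {M N : Type w} [L.Structure M] [L.Structure N]
    {f : M ↪[L] N} (hf : K.StrongEmb f) {a : N} {Q : L.Substructure M} (hQ : K.Strong M Q) :
    K.Strong N (K.clOver f a Q) :=
  hK N (Q.map f.toHom) a (hf.map hQ)

theorem isos_of_amalgam (hK : K.HasClosures) (hf₁ : K.StrongEmb f₁) (hf₂ : K.StrongEmb f₂)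
    {N : Type w} [L.Structure N]
    {g₁ : N₁ ↪[L] N} {g₂ : N₂ ↪[L] N} (h₁ : K.StrongEmb g₁) (h₂ : K.StrongEmb g₂)
    {Q : L.Substructure M} (hQs : K.Strong M Q)
    (hQ : ∀ m ∈ Q, g₁ (f₁ m) = g₂ (f₂ m)) (ha : g₁ a₁ = g₂ a₂) :
    ∃ e ∈ K.Isos f₁ a₁ f₂ a₂ Q, ∀ x : K.clOver f₁ a₁ Q, g₁ x = g₂ (e x) := by
  have himg : g₁ '' (insert a₁ (f₁ '' (Q : Set M))) = g₂ '' (insert a₂ (f₂ '' (Q : Set M))) := by
    rw [Set.image_insert_eq, Set.image_insert_eq, ha, ← Set.image_comp, ← Set.image_comp]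
    congr 1
    apply Set.image_congr
    intro m hm
    exact hQ m hm
  have hs : K.Strong N (K.cl (g₁ '' (insert a₁ (f₁ '' (Q : Set M))))) := by
    rw [Set.image_insert_eq]
    exact hK N ((Q.map f₁.toHom).map g₁.toHom) (g₁ a₁) (h₁.map (hf₁.map hQs))
  obtain ⟨e, he⟩ := iso_of_image_eq h₁ h₂ (strong_clOver hK hf₁ (a := a₁) hQs)
    (strong_clOver hK hf₂ (a := a₂) hQs) hs himg
  refine ⟨e, ⟨?_, ?_⟩, he⟩
  · intro m hm x hx
    have h3 := he x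
    rw [hx, hQ m hm] at h3
    exact (g₂.injective h3).symm
  · intro x hx
    have h3 := he x
    rw [hx, ha] at h3
    exact (g₂.injective h3).symm

theorem isos_nonempty (hK : K.HasClosures) (hf₁ : K.StrongEmb f₁) (hf₂ : K.StrongEmb f₂)
    {Q : L.Substructure M} (hQs : K.Strong M Q)
    (h : K.SameType (f₁.comp Q.subtype) a₁ (f₂.comp Q.subtype) a₂) :
    (K.Isos f₁ a₁ f₂ a₂ Q).Nonempty := by
  obtain ⟨N, _, g₁, g₂, h₁, h₂, hm, ha⟩ := h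
  obtain ⟨e, he, _⟩ := isos_of_amalgam (f₁ := f₁) (f₂ := f₂) (Q := Q) hK hf₁ hf₂ h₁ h₂ hQs
    (fun m hm' => hm ⟨m, hm'⟩) ha
  exact ⟨e, he⟩

/-- An isomorphism of closures is induced by an amalgam. -/
theorem amalgam_of_isos (hK : K.HasClosures) (hAP : K.Amalgamation)
    (hf₁ : K.StrongEmb f₁) (hf₂ : K.StrongEmb f₂) {Q : L.Substructure M} (hQs : K.Strong M Q)
    {e : K.clOver f₁ a₁ Q ≃[L] K.clOver f₂ a₂ Q} (he : e ∈ K.Isos f₁ a₁ f₂ a₂ Q) :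
    ∃ (N : Type w) (_ : L.Structure N) (g₁ : N₁ ↪[L] N) (g₂ : N₂ ↪[L] N),
      K.StrongEmb g₁ ∧ K.StrongEmb g₂ ∧ (∀ m ∈ Q, g₁ (f₁ m) = g₂ (f₂ m)) ∧ g₁ a₁ = g₂ a₂ ∧
      ∀ x : K.clOver f₁ a₁ Q, g₁ x = g₂ (e x) := by
  have s1 : K.Strong N₁ (K.clOver f₁ a₁ Q) := strong_clOver hK hf₁ hQs
  have s2 : K.Strong N₂ (K.clOver f₂ a₂ Q) := strong_clOver hK hf₂ hQs
  have t1 : K.StrongEmb (K.clOver f₁ a₁ Q).subtype := strong_subtype s1
  have t2 : K.StrongEmb ((K.clOver f₂ a₂ Q).subtype.comp e.toEmbedding) :=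
    (strong_subtype s2).comp (strongEmb_equiv e (K.mem_of_strong _ _ s1).2)
  obtain ⟨N, hN, g₁, g₂, h₁, h₂, hg⟩ := hAP _ _ _ _ _ t1 t2
  have hg' : ∀ x : K.clOver f₁ a₁ Q, g₁ x = g₂ (e x) := hg
  refine ⟨N, hN, g₁, g₂, h₁, h₂, ?_, ?_, hg'⟩
  · intro m hm
    have h3 := hg' ⟨f₁ m, mem_clOver_of_mem hm⟩
    rw [he.1 m hm ⟨f₁ m, mem_clOver_of_mem hm⟩ rfl] at h3
    exact h3
  · have h3 := hg' ⟨a₁, mem_clOver_base⟩
    rw [he.2 ⟨a₁, mem_clOver_base⟩ rfl] at h3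
    exact h3

theorem isos_restrict (hK : K.HasClosures) (hAP : K.Amalgamation)
    (hf₁ : K.StrongEmb f₁) (hf₂ : K.StrongEmb f₂) {Q R : L.Substructure M}
    (hQs : K.Strong M Q) (hRs : K.Strong M R) (hQR : Q ≤ R)
    {e : K.clOver f₁ a₁ R ≃[L] K.clOver f₂ a₂ R} (he : e ∈ K.Isos f₁ a₁ f₂ a₂ R) :
    ∃ e' ∈ K.Isos f₁ a₁ f₂ a₂ Q, ∀ (x : K.clOver f₁ a₁ Q) (y : K.clOver f₁ a₁ R),
      (x : N₁) = y → (e' x : N₂) = e y := by
  obtain ⟨N, _, g₁, g₂, h₁, h₂, hm, ha, hx⟩ := amalgam_of_isos hK hAP hf₁ hf₂ hRs he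
  obtain ⟨e', he', hx'⟩ := isos_of_amalgam (f₁ := f₁) (f₂ := f₂) (Q := Q) hK hf₁ hf₂ h₁ h₂ hQs
    (fun m hm' => hm m (hQR hm')) ha
  refine ⟨e', he', fun x y hxy => ?_⟩
  have h3 := hx y
  have h4 := hx' x
  rw [hxy, h3] at h4
  exact (g₂.injective h4).symm

theorem sameType_of_isos (hK : K.HasClosures) (hAP : K.Amalgamation)
    (hf₁ : K.StrongEmb f₁) (hf₂ : K.StrongEmb f₂)
    {e : K.clOver f₁ a₁ (⊤ : L.Substructure M) ≃[L] K.clOver f₂ a₂ (⊤ : L.Substructure M)}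
    (he : e ∈ K.Isos f₁ a₁ f₂ a₂ ⊤) : K.SameType f₁ a₁ f₂ a₂ := by
  obtain ⟨N, hN, g₁, g₂, h₁, h₂, hm, ha, _⟩ :=
    amalgam_of_isos hK hAP hf₁ hf₂ (K.refl _ hf₁.mem_left) he
  exact ⟨N, hN, g₁, g₂, h₁, h₂, fun m => hm m trivial, ha⟩

end context

end AEC

end Pool.Agent.H85.AECT
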