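import Pool.Agent.H85.AECT.Compact

set_option autoImplicit false

/-!
# The main theorem
-/

open FirstOrder FirstOrder.Language Cardinal

namespace Pool.Agent.H85.AECT

universe w

variable {L : FirstOrder.Language.{w, w}} {K : AEC L}

namespace AEC

section main

variable {M N₁ N₂ : Type w} [L.Structure M] [L.Structure N₁] [L.Structure N₂]
  {f₁ : M ↪[L] N₁} {a₁ : N₁} {f₂ : M ↪[L] N₂} {a₂ : N₂} {κ θ : Cardinal.{w}}

/-- A function on the closure over `M` all of whose finite restrictions are given by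
isomorphisms of the closures over all good models. -/
theorem exists_global (hK : K.HasClosures) (hAP : K.Amalgamation) (hLS : K.LS ≤ θ)
    (hf₁ : K.StrongEmb f₁) (hf₂ : K.StrongEmb f₂) {X : Set N₁} {h : X → N₂}
    (hcof : ∀ Q : K.Sml M θ, ∃ R : K.Sml M θ, Q.1 ≤ R.1 ∧ K.Good f₁ a₁ R.1 X)
    (hne : ∀ Q : K.Sml M θ, X ⊆ K.clOver f₁ a₁ Q.1 → (K.IsosOn f₁ a₁ f₂ a₂ h Q.1).Nonempty) :
    ∃ χ : K.clOver f₁ a₁ (⊤ : L.Substructure M) → N₂,
      ∀ (s : Finset (K.clOver f₁ a₁ (⊤ : L.Substructure M))) (Q : K.Sml M θ),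
        K.Good f₁ a₁ Q.1 X → (∀ x ∈ s, (x : N₁) ∈ K.clOver f₁ a₁ Q.1) →
        ∃ e ∈ K.IsosOn f₁ a₁ f₂ a₂ h Q.1, ∀ x ∈ s, ∀ y : K.clOver f₁ a₁ Q.1,
          (y : N₁) = x → (e y : N₂) = χ x := by
  classical
  have hM : K.Mem M := hf₁.mem_left
  have hN₁ : K.Mem N₁ := hf₁.mem
  have hN₂ : K.Mem N₂ := hf₂.mem
  have hθ : ℵ₀ ≤ θ := (ls_spec (K := K)).1.trans hLS
  obtain ⟨Q00, _⟩ := exists_ub hM hLS (∅ : Set (K.Sml M θ)) (by simp) ∅ (by simp)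
  -- good models containing a given finite set and above a given model
  have hcof' : ∀ (Q : K.Sml M θ) (s : Finset (K.clOver f₁ a₁ (⊤ : L.Substructure M))),
      ∃ R : K.Sml M θ, Q.1 ≤ R.1 ∧ K.Good f₁ a₁ R.1 X ∧
        ∀ x ∈ s, (x : N₁) ∈ K.clOver f₁ a₁ R.1 := by
    intro Q s
    obtain ⟨R, hR, hs⟩ := exists_small_of_finite hK hLS hf₁ Q s
    obtain ⟨S, hS, hgood⟩ := hcof R
    exact ⟨S, hR.trans hS, hgood, fun x hx => clOver_mono hS (hs x hx)⟩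
  -- the restrictions to a finite set
  let T : (s : Finset (K.clOver f₁ a₁ (⊤ : L.Substructure M))) → K.Sml M θ → Set (s → N₂) :=
    fun s Q => {u | ∃ e ∈ K.IsosOn f₁ a₁ f₂ a₂ h Q.1, ∀ (x : s) (y : K.clOver f₁ a₁ Q.1),
      (y : N₁) = x.1 → (e y : N₂) = u x}
  have hTfin : ∀ (s : Finset (K.clOver f₁ a₁ (⊤ : L.Substructure M))) (Q : K.Sml M θ), K.Good f₁ a₁ Q.1 X →
      (∀ x ∈ s, (x : N₁) ∈ K.clOver f₁ a₁ Q.1) → (T s Q).Finite := by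
    intro s Q hQ hs
    have h1 : (Set.univ.pi fun x : s =>
        {y : N₂ | ∃ e ∈ K.IsosOn f₁ a₁ f₂ a₂ h Q.1,
          (e ⟨x.1, hs x.1 x.2⟩ : N₂) = y}).Finite :=
      Set.Finite.pi fun x => finite_values hQ _
    apply h1.subset
    rintro u ⟨e, he, hu⟩ x _
    exact ⟨e, he, hu x _ rfl⟩
  have hTne : ∀ (s : Finset (K.clOver f₁ a₁ (⊤ : L.Substructure M))) (Q : K.Sml M θ), K.Good f₁ a₁ Q.1 X →
      (∀ x ∈ s, (x : N₁) ∈ K.clOver f₁ a₁ Q.1) → (T s Q).Nonempty := by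
    intro s Q hQ hs
    obtain ⟨e, he⟩ := hne Q hQ.1
    refine ⟨fun x => e ⟨x.1, hs x.1 x.2⟩, e, he, ?_⟩
    intro x y hy
    have : y = ⟨x.1, hs x.1 x.2⟩ := Subtype.ext hy
    rw [this]
  have hTmono : ∀ (s : Finset (K.clOver f₁ a₁ (⊤ : L.Substructure M))) (Q R : K.Sml M θ), Q.1 ≤ R.1 →
      (∀ x ∈ s, (x : N₁) ∈ K.clOver f₁ a₁ Q.1) → T s R ⊆ T s Q := by
    rintro s Q R hQR hs u ⟨e, he, hu⟩
    obtain ⟨e', he', hee'⟩ := isosOn_restrict hK hAP hf₁ hf₂ Q.2.1 R.2.1 hQR he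
    refine ⟨e', he', ?_⟩
    intro x y hy
    have hyR : (y : N₁) ∈ K.clOver f₁ a₁ R.1 := clOver_mono hQR y.2
    rw [hee' y ⟨y, hyR⟩ rfl]
    exact hu x ⟨y, hyR⟩ hy
  -- a stable restriction
  have hstable : ∀ s : Finset (K.clOver f₁ a₁ (⊤ : L.Substructure M)), ∃ u : s → N₂,
      ∀ Q : K.Sml M θ, K.Good f₁ a₁ Q.1 X → (∀ x ∈ s, (x : N₁) ∈ K.clOver f₁ a₁ Q.1) →
        u ∈ T s Q := by
    intro s
    let G : Set (K.Sml M θ) := {Q | K.Good f₁ a₁ Q.1 X ∧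
      ∀ x ∈ s, (x : N₁) ∈ K.clOver f₁ a₁ Q.1}
    have hG : G.Nonempty := by
      obtain ⟨R, _, h2, h3⟩ := hcof' Q00 s
      exact ⟨R, h2, h3⟩
    obtain ⟨Q, hQG, hmin⟩ : ∃ Q ∈ G, ∀ R ∈ G, (T s Q).ncard ≤ (T s R).ncard := by
      have h1 := hG.image (fun Q => (T s Q).ncard)
      obtain ⟨Q, hQ, hQe⟩ := Nat.sInf_mem h1
      refine ⟨Q, hQ, fun R hR => ?_⟩
      have h2 : sInf ((fun Q => (T s Q).ncard) '' G) ≤ (T s R).ncard :=
        Nat.sInf_le ⟨R, hR, rfl⟩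
      exact hQe.le.trans h2
    obtain ⟨u, hu⟩ := hTne s Q hQG.1 hQG.2
    refine ⟨u, fun R hR hsR => ?_⟩
    obtain ⟨S, hS, _⟩ := exists_ub hM hLS {Q, R} (by
      refine Cardinal.mk_insert_le.trans ?_
      rw [Cardinal.mk_singleton]
      exact (add_le_add (Cardinal.one_le_aleph0.trans hθ)
        (Cardinal.one_le_aleph0.trans hθ)).trans (Cardinal.add_eq_self hθ).le) ∅ (by simp)
    obtain ⟨S', hS', hgood⟩ := hcof S
    have hQS : Q.1 ≤ S'.1 := (hS Q (by simp)).trans hS'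
    have hRS : R.1 ≤ S'.1 := (hS R (by simp)).trans hS'
    have hsS : ∀ x ∈ s, (x : N₁) ∈ K.clOver f₁ a₁ S'.1 := fun x hx =>
      clOver_mono hQS (hQG.2 x hx)
    have h1 : T s S' ⊆ T s Q := hTmono s Q S' hQS hQG.2
    have h2 : T s S' = T s Q :=
      Set.eq_of_subset_of_ncard_le h1 (hmin S' ⟨hgood, hsS⟩) (hTfin s Q hQG.1 hQG.2)
    exact hTmono s R S' hRS hsR (h2 ▸ hu)
  choose u hu using hstable
  -- finite sets of values
  let V : K.clOver f₁ a₁ (⊤ : L.Substructure M) → Set N₂ := fun x =>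
    {y | ∀ Q : K.Sml M θ, K.Good f₁ a₁ Q.1 X → ∀ hx : (x : N₁) ∈ K.clOver f₁ a₁ Q.1,
      ∃ e ∈ K.IsosOn f₁ a₁ f₂ a₂ h Q.1, (e ⟨x, hx⟩ : N₂) = y}
  have hV : ∀ x, Finite (V x) := by
    intro x
    obtain ⟨R, _, hR, hxR⟩ := hcof' Q00 {x}
    have hx : (x : N₁) ∈ K.clOver f₁ a₁ R.1 := hxR x (Finset.mem_singleton_self x)
    apply Set.Finite.to_subtype
    apply (finite_values (f₂ := f₂) (a₂ := a₂) (h := h) hR ⟨x, hx⟩).subset
    intro y hy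
    exact hy R hR hx
  have huV : ∀ (s : Finset (K.clOver f₁ a₁ (⊤ : L.Substructure M))) (x : s), u s x ∈ V x.1 := by
    intro s x Q hQ hx
    obtain ⟨R, hQR, hR, hsR⟩ := hcof' Q s
    obtain ⟨e, he, hue⟩ := hu s R hR hsR
    obtain ⟨e', he', hee'⟩ := isosOn_restrict hK hAP hf₁ hf₂ Q.2.1 R.2.1 hQR he
    refine ⟨e', he', ?_⟩
    rw [hee' ⟨x.1, hx⟩ ⟨x.1, hsR x.1 x.2⟩ rfl]
    exact hue x ⟨x.1, hsR x.1 x.2⟩ rfl
  obtain ⟨χ, hχ⟩ := Finset.rado_selection_subtype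
    (β := fun x : K.clOver f₁ a₁ (⊤ : L.Substructure M) => V x)
    (fun s x => ⟨u s x, huV s x⟩)
  refine ⟨fun x => χ x, ?_⟩
  intro s Q hQ hs
  obtain ⟨t, hst, ht⟩ := hχ s
  obtain ⟨R, hQR, hR, htR⟩ := hcof' Q t
  obtain ⟨e, he, hue⟩ := hu t R hR htR
  obtain ⟨e', he', hee'⟩ := isosOn_restrict hK hAP hf₁ hf₂ Q.2.1 R.2.1 hQR he
  refine ⟨e', he', ?_⟩
  intro x hx y hy
  have hyR : (y : N₁) ∈ K.clOver f₁ a₁ R.1 := clOver_mono hQR y.2
  rw [hee' y ⟨y, hyR⟩ rfl, hue ⟨x, hst hx⟩ ⟨y, hyR⟩ hy]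
  have h3 := ht ⟨x, hx⟩
  have h4 := congrArg Subtype.val h3
  exact h4.symm

/-- The global function is an isomorphism of closures. -/
theorem exists_iso_top (hK : K.HasClosures) (hAP : K.Amalgamation) (hLS : K.LS ≤ θ)
    (hf₁ : K.StrongEmb f₁) (hf₂ : K.StrongEmb f₂) {X : Set N₁} {h : X → N₂}
    (hcof : ∀ Q : K.Sml M θ, ∃ R : K.Sml M θ, Q.1 ≤ R.1 ∧ K.Good f₁ a₁ R.1 X)
    (hne : ∀ Q : K.Sml M θ, X ⊆ K.clOver f₁ a₁ Q.1 → (K.IsosOn f₁ a₁ f₂ a₂ h Q.1).Nonempty) :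
    (K.Isos f₁ a₁ f₂ a₂ (⊤ : L.Substructure M)).Nonempty := by
  classical
  have hM : K.Mem M := hf₁.mem_left
  have hN₁ : K.Mem N₁ := hf₁.mem
  have hN₂ : K.Mem N₂ := hf₂.mem
  have hθ : ℵ₀ ≤ θ := (ls_spec (K := K)).1.trans hLS
  obtain ⟨χ, hχ⟩ := exists_global hK hAP hLS hf₁ hf₂ hcof hne
  obtain ⟨Q00, _⟩ := exists_ub hM hLS (∅ : Set (K.Sml M θ)) (by simp) ∅ (by simp)
  have hcof' : ∀ (Q : K.Sml M θ) (s : Finset (K.clOver f₁ a₁ (⊤ : L.Substructure M))),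
      ∃ R : K.Sml M θ, Q.1 ≤ R.1 ∧ K.Good f₁ a₁ R.1 X ∧
        ∀ x ∈ s, (x : N₁) ∈ K.clOver f₁ a₁ R.1 := by
    intro Q s
    obtain ⟨R, hR, hs⟩ := exists_small_of_finite hK hLS hf₁ Q s
    obtain ⟨S, hS, hgood⟩ := hcof R
    exact ⟨S, hR.trans hS, hgood, fun x hx => clOver_mono hS (hs x hx)⟩
  have hmem : ∀ x, χ x ∈ K.clOver f₂ a₂ (⊤ : L.Substructure M) := by
    intro x
    obtain ⟨R, _, hR, hs⟩ := hcof' Q00 {x}
    obtain ⟨e, _, he⟩ := hχ {x} R hR hs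
    rw [← he x (Finset.mem_singleton_self x) ⟨x, hs x (Finset.mem_singleton_self x)⟩ rfl]
    exact clOver_mono le_top (e _).2
  let φ : K.clOver f₁ a₁ (⊤ : L.Substructure M) → K.clOver f₂ a₂ (⊤ : L.Substructure M) :=
    fun x => ⟨χ x, hmem x⟩
  have hinj : Function.Injective φ := by
    intro x y hxy
    have hxy' : χ x = χ y := congrArg Subtype.val hxy
    obtain ⟨R, _, hR, hs⟩ := hcof' Q00 {x, y}
    obtain ⟨e, _, he⟩ := hχ {x, y} R hR hs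
    have h1 := he x (by simp) ⟨x, hs x (by simp)⟩ rfl
    have h2 := he y (by simp) ⟨y, hs y (by simp)⟩ rfl
    have h3 : e ⟨x, hs x (by simp)⟩ = e ⟨y, hs y (by simp)⟩ :=
      Subtype.ext (by rw [h1, h2, hxy'])
    have h4 := e.injective h3
    exact Subtype.ext (congrArg (fun z : K.clOver f₁ a₁ R.1 => (z : N₁)) h4)
  have hsurj : Function.Surjective φ := by
    intro y
    obtain ⟨R₁, _, hyR₁⟩ := exists_small_of_finite (f₁ := f₂) (a₁ := a₂) hK hLS hf₂ Q00 {y}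
    obtain ⟨R, hR₁R, hR, _⟩ := hcof' R₁ ∅
    have hy : (y : N₂) ∈ K.clOver f₂ a₂ R.1 :=
      clOver_mono hR₁R (hyR₁ y (Finset.mem_singleton_self y))
    have hfin := finite_preimages (f₂ := f₂) (a₂ := a₂) (h := h) hR ⟨y, hy⟩
    let incl : K.clOver f₁ a₁ R.1 → K.clOver f₁ a₁ (⊤ : L.Substructure M) :=
      fun c => ⟨c, clOver_mono le_top c.2⟩
    let s : Finset (K.clOver f₁ a₁ (⊤ : L.Substructure M)) := hfin.toFinset.image incl
    have hs : ∀ x ∈ s, (x : N₁) ∈ K.clOver f₁ a₁ R.1 := by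
      intro x hx
      obtain ⟨c, _, rfl⟩ := Finset.mem_image.mp hx
      exact c.2
    obtain ⟨e, he, hes⟩ := hχ s R hR hs
    refine ⟨incl (e.symm ⟨y, hy⟩), ?_⟩
    have hmem' : incl (e.symm ⟨y, hy⟩) ∈ s := by
      apply Finset.mem_image_of_mem
      rw [Set.Finite.mem_toFinset]
      exact ⟨e, he, by simp⟩
    have h1 := hes _ hmem' (e.symm ⟨y, hy⟩) rfl
    apply Subtype.ext
    show χ (incl (e.symm ⟨y, hy⟩)) = y
    rw [← h1, Language.Equiv.apply_symm_apply]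
  refine ⟨⟨_root_.Equiv.ofBijective φ ⟨hinj, hsurj⟩, ?_, ?_⟩, ?_, ?_⟩
  · intro n F x
    let s : Finset (K.clOver f₁ a₁ (⊤ : L.Substructure M)) :=
      insert (Structure.funMap F x) (Finset.univ.image x)
    obtain ⟨R, _, hR, hs⟩ := hcof' Q00 s
    obtain ⟨e, _, he⟩ := hχ s R hR hs
    have hx : ∀ i, x i ∈ s := fun i =>
      Finset.mem_insert_of_mem (Finset.mem_image_of_mem _ (Finset.mem_univ i))
    let y : Fin n → K.clOver f₁ a₁ R.1 := fun i => ⟨x i, hs _ (hx i)⟩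
    have h1 : ((Structure.funMap F y : K.clOver f₁ a₁ R.1) : N₁) =
        ((Structure.funMap F x : K.clOver f₁ a₁ (⊤ : L.Substructure M)) : N₁) := rfl
    have h2 := he _ (Finset.mem_insert_self _ _) (Structure.funMap F y) h1
    have h3 : e (Structure.funMap F y) = Structure.funMap F (e ∘ y) := e.map_fun F y
    apply Subtype.ext
    show χ (Structure.funMap F x) = _
    rw [← h2, h3]
    show Structure.funMap F (fun i => ((e (y i) : K.clOver f₂ a₂ R.1) : N₂)) =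
      Structure.funMap F (fun i => χ (x i))
    congr 1
    funext i
    exact he _ (hx i) (y i) rfl
  · intro n F x
    let s : Finset (K.clOver f₁ a₁ (⊤ : L.Substructure M)) := Finset.univ.image x
    obtain ⟨R, _, hR, hs⟩ := hcof' Q00 s
    obtain ⟨e, _, he⟩ := hχ s R hR hs
    have hx : ∀ i, x i ∈ s := fun i => Finset.mem_image_of_mem _ (Finset.mem_univ i)
    let y : Fin n → K.clOver f₁ a₁ R.1 := fun i => ⟨x i, hs _ (hx i)⟩
    have h3 : Structure.RelMap F (e ∘ y) ↔ Structure.RelMap F y := e.map_rel F y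
    have h4 : (fun i => ((e (y i) : K.clOver f₂ a₂ R.1) : N₂)) = fun i => χ (x i) := by
      funext i
      exact he _ (hx i) (y i) rfl
    have h5 : Structure.RelMap F (fun i => ((e (y i) : K.clOver f₂ a₂ R.1) : N₂)) ↔
        Structure.RelMap F (fun i => (x i : N₁)) := h3
    rw [h4] at h5
    exact h5
  · intro m _ x hx
    obtain ⟨R₀, _, hmR₀⟩ := exists_ub hM hLS {Q00}
      (by rw [Cardinal.mk_singleton]; exact Cardinal.one_le_aleph0.trans hθ) {m}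
      (by rw [Cardinal.mk_singleton]; exact Cardinal.one_le_aleph0.trans hθ)
    obtain ⟨R, hR₀R, hR, hs⟩ := hcof' R₀ {x}
    obtain ⟨e, he', he⟩ := hχ {x} R hR hs
    have h1 := he x (Finset.mem_singleton_self x) ⟨x, hs x (Finset.mem_singleton_self x)⟩ rfl
    have h2 := he'.1.1 m (hR₀R (hmR₀ rfl)) ⟨x, hs x (Finset.mem_singleton_self x)⟩ hx
    show χ x = f₂ m
    rw [← h1, h2]
  · intro x hx
    obtain ⟨R, _, hR, hs⟩ := hcof' Q00 {x}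
    obtain ⟨e, he', he⟩ := hχ {x} R hR hs
    have h1 := he x (Finset.mem_singleton_self x) ⟨x, hs x (Finset.mem_singleton_self x)⟩ rfl
    have h2 := he'.1.2 ⟨x, hs x (Finset.mem_singleton_self x)⟩ hx
    show χ x = a₂
    rw [← h1, h2]

end main

/-- **Main theorem**: an AEC with amalgamation and closures over models whose closures over
models of size at most `θ` are almost rigid is `(θ, ∞)`-tame. -/
theorem tame_of_almostRigid (hK : K.HasClosures) (hAP : K.Amalgamation)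
    {κ θ : Cardinal.{w}} (hκ : κ.IsRegular) (hLS : K.LS ≤ θ) (hpow : ∀ ν < κ, θ ^ ν ≤ θ)
    (hAR : K.AlmostRigid κ θ) : K.Tame θ := by
  intro M N₁ N₂ _ _ _ f₁ a₁ f₂ a₂ hf₁ hf₂ hsame
  have hM : K.Mem M := hf₁.mem_left
  obtain ⟨X, hXc, hX⟩ := exists_good (a := a₁) hK hκ hLS hpow hAR hf₁
  obtain ⟨Q00, _⟩ := exists_ub hM hLS (∅ : Set (K.Sml M θ)) (by simp) ∅ (by simp)
  obtain ⟨Q₀, _, hQ₀⟩ := hX Q00
  obtain ⟨h, hh⟩ := exists_images hK hAP hLS hf₁ hf₂ hsame hpow hXc hQ₀.1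
  have hne : ∀ Q : K.Sml M θ, X ⊆ K.clOver f₁ a₁ Q.1 →
      (K.IsosOn f₁ a₁ f₂ a₂ h Q.1).Nonempty := by
    intro Q hXQ
    obtain ⟨e, he, hx⟩ := hh Q hXQ
    exact ⟨e, he, fun x hxX => hx ⟨x, hxX⟩⟩
  obtain ⟨e, he⟩ := exists_iso_top hK hAP hLS hf₁ hf₂ hX hne
  exact sameType_of_isos hK hAP hf₁ hf₂ he

end AEC

end Pool.Agent.H85.AECT
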